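import Pool.Agent.OPG.Stmts

/-!
# Squad OPG, row GAP (helper91)
-/

set_option autoImplicit false

namespace Pool.Agent.Helper91_OPG.GAP

open Finset Pool.Agent.OPG

theorem result : GapStmt := by
  classical
  intro T R L K hL hK hR hh
  have hL0 : 0 < L := hL
  set T1 := T.filter fun t => ∀ m ∈ T, m / L = t / L → t ≤ m with hT1
  set T2 := T.filter fun t => ¬ ∀ m ∈ T, m / L = t / L → t ≤ m with hT2
  have hcard : T.card = T1.card + T2.card := by
    rw [hT1, hT2, card_filter_add_card_filter_not]
  have h1 : T1.card ≤ R / L + 1 := by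
    have h2 : (T1.image fun t => t / L).card = T1.card := by
      apply card_image_of_injOn
      intro t ht u hu htu
      have ht' := mem_filter.mp (mem_coe.mp ht)
      have hu' := mem_filter.mp (mem_coe.mp hu)
      exact le_antisymm (ht'.2 u hu'.1 (by simpa using htu.symm)) (hu'.2 t ht'.1 (by simpa using htu))
    rw [← h2, ← card_range (R / L + 1)]
    apply card_le_card
    intro y hy
    obtain ⟨t, ht, rfl⟩ := mem_image.mp hy
    exact mem_range.mpr (Nat.lt_succ_of_le (Nat.div_le_div_right (hR t (mem_filter.mp ht).1)))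
  have h2 : (T2.card : ℝ) ≤ L * K := by
    have h3 : T2 ⊆ (Ico 1 L).biUnion fun h => (T.filter fun t => t + h ∈ T).image fun t => t + h := by
      intro t ht
      obtain ⟨htT, hn⟩ := mem_filter.mp ht
      push Not at hn
      obtain ⟨m, hm, hml, hmt⟩ := hn
      rw [mem_biUnion]
      have hd : t - m < L := by
        have e1 := Nat.div_add_mod t L
        have e2 := Nat.div_add_mod m L
        rw [hml] at e2
        have e3 := Nat.mod_lt t hL0
        omega
      refine ⟨t - m, mem_Ico.mpr ⟨by omega, hd⟩, mem_image.mpr ⟨m, mem_filter.mpr ⟨hm, ?_⟩, by omega⟩⟩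
      have : m + (t - m) = t := by omega
      rw [this]; exact htT
    have h4 : (T2.card : ℝ) ≤ ∑ h ∈ Ico 1 L, K := by
      calc (T2.card : ℝ) ≤ (((Ico 1 L).biUnion fun h =>
            (T.filter fun t => t + h ∈ T).image fun t => t + h).card : ℝ) := by
            exact_mod_cast card_le_card h3
        _ ≤ ((∑ h ∈ Ico 1 L, ((T.filter fun t => t + h ∈ T).image fun t => t + h).card : ℕ) : ℝ) := by
            exact_mod_cast card_biUnion_le
        _ = ∑ h ∈ Ico 1 L, (((T.filter fun t => t + h ∈ T).image fun t => t + h).card : ℝ) := by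
            push_cast; rfl
        _ ≤ ∑ h ∈ Ico 1 L, K := by
            refine sum_le_sum fun h hmem => ?_
            obtain ⟨e1, e2⟩ := mem_Ico.mp hmem
            refine le_trans ?_ (hh h e1 e2)
            exact_mod_cast card_image_le
    refine h4.trans ?_
    rw [sum_const, nsmul_eq_mul, Nat.card_Ico]
    apply mul_le_mul_of_nonneg_right _ hK
    exact_mod_cast Nat.sub_le L 1
  have h5 : ((R / L : ℕ) : ℝ) ≤ (R : ℝ) / L := Nat.cast_div_le
  have h6 : (T1.card : ℝ) ≤ (R : ℝ) / L + 1 := by
    calc (T1.card : ℝ) ≤ ((R / L + 1 : ℕ) : ℝ) := by exact_mod_cast h1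
      _ = ((R / L : ℕ) : ℝ) + 1 := by push_cast; rfl
      _ ≤ (R : ℝ) / L + 1 := by linarith
  rw [hcard]
  push_cast
  linarith

end Pool.Agent.Helper91_OPG.GAP
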